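import Pool.Agent.Helper85.IA.St

/-!
# Project IA, part N: module RUN (union of packings)
-/

set_option autoImplicit false

namespace Pool.Agent.Helper62.IA85

open Finset Pool.Agent.Helper93.IA Pool.Agent.Helper85.IA

private theorem inj_union {τ ρ : Type} [DecidableEq τ] [DecidableEq ρ] {A : Finset ρ} {e : τ → ρ}
    {P Q : Finset τ} (hP : ∀ T ∈ P, ∀ T' ∈ P, e T = e T' → T = T')
    (hQ : ∀ T ∈ Q, ∀ T' ∈ Q, e T = e T' → T = T') (hd : ∀ T ∈ Q, e T ∈ A \ P.image e) :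
    ∀ T ∈ P ∪ Q, ∀ T' ∈ P ∪ Q, e T = e T' → T = T' := by
  intro T hT T' hT' h
  rcases Finset.mem_union.mp hT with h1 | h1 <;> rcases Finset.mem_union.mp hT' with h2 | h2
  · exact hP T h1 T' h2 h
  · exact absurd (Finset.mem_image.mpr ⟨T, h1, h⟩) (Finset.mem_sdiff.mp (hd T' h2)).2
  · exact absurd (Finset.mem_image.mpr ⟨T', h2, h.symm⟩) (Finset.mem_sdiff.mp (hd T h1)).2
  · exact hQ T h1 T' h2 h

private theorem sub_union {τ ρ : Type} [DecidableEq τ] [DecidableEq ρ] {A : Finset ρ} {e : τ → ρ}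
    {P Q : Finset τ} (hP : ∀ T ∈ P, e T ∈ A) (hd : ∀ T ∈ Q, e T ∈ A \ P.image e) :
    ∀ T ∈ P ∪ Q, e T ∈ A := by
  intro T hT
  rcases Finset.mem_union.mp hT with h1 | h1
  · exact hP T h1
  · exact (Finset.mem_sdiff.mp (hd T h1)).1

private theorem sdiff_im {τ ρ : Type} [DecidableEq τ] [DecidableEq ρ] (A : Finset ρ) (e : τ → ρ)
    (P Q : Finset τ) : A \ (P ∪ Q).image e = (A \ P.image e) \ Q.image e := by
  ext v
  simp only [Finset.mem_sdiff, Finset.mem_image, Finset.mem_union]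
  constructor
  · rintro ⟨h1, h2⟩
    exact ⟨⟨h1, fun ⟨T, hT, h⟩ => h2 ⟨T, Or.inl hT, h⟩⟩, fun ⟨T, hT, h⟩ => h2 ⟨T, Or.inr hT, h⟩⟩
  · rintro ⟨⟨h1, h2⟩, h3⟩
    refine ⟨h1, ?_⟩
    rintro ⟨T, hT | hT, h⟩
    · exact h2 ⟨T, hT, h⟩
    · exact h3 ⟨T, hT, h⟩

/-- RUN (union of packings). -/
theorem hRUN : StRUN := by
  intro α β γ _ _ _ A B C P Q hP hQ
  exact ⟨⟨sub_union hP.sA hQ.sA, sub_union hP.sB hQ.sB, sub_union hP.sC hQ.sC,
    inj_union hP.iA hQ.iA hQ.sA, inj_union hP.iB hQ.iB hQ.sB, inj_union hP.iC hQ.iC hQ.sC⟩,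
    sdiff_im A eA P Q, sdiff_im B eB P Q, sdiff_im C eC P Q⟩

end Pool.Agent.Helper62.IA85
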